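import Pool.Agent.Run7.h453.IZ.Poly

set_option autoImplicit false

/-!
The coefficients of the inverse `Z`-polynomial in rank at most 4.
-/

namespace Pool.Agent.Run7.h453.IZ

open Finset Polynomial DC813 Pool.Agent.W573.RF
open Pool.Agent.K7.H84.GG (fl cl Lp)
open Pool.Agent.K7.H62.GGWEIS

variable {α : Type} [DecidableEq α] {r : Finset α → ℕ} {E : Finset α}

/-- the sum over the flats below `G`, by rank -/
lemma sum_below (hr : IsRk r) (lp : Lp r E) {n : ℕ} {G : Finset α} (hG : G ∈ lv r E (n + 1))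
    (f : Finset α → ℤ) : ∑ H ∈ below r E G, f H =
      f ∅ + ∑ k ∈ range n, ∑ H ∈ (lv r E (k + 1)).filter (fun H => H ⊆ G), f H + f G := by
  obtain ⟨g1, g2⟩ := mem_lv.1 hG
  have hmaps : ∀ H ∈ below r E G, r H ∈ range (n + 2) := by
    intro H hH
    have := hr.mono H G (mem_below.1 hH).2
    rw [mem_range]; omega
  rw [← sum_fiberwise_of_maps_to hmaps, sum_range_succ, sum_range_succ', add_comm (∑ k ∈ range n, _)]
  have e0 : (below r E G).filter (fun H => r H = 0) = {∅} := by
    ext H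
    rw [mem_filter, mem_below, mem_singleton]
    constructor
    · rintro ⟨⟨a1, a2⟩, a3⟩
      rw [eq_empty_iff_forall_notMem]
      intro e he
      have h1 := lp e (fl_sub a1 he)
      have h2 := hr.mono {e} H (singleton_subset_iff.2 he)
      omega
    · rintro rfl
      refine ⟨⟨(mem_fl hr).2 ⟨empty_subset _, fun e he h => ?_⟩, empty_subset _⟩, hr.empty⟩
      have h1 := lp e he
      rw [hr.empty] at h
      have h2 : insert e (∅ : Finset α) = {e} := rfl
      rw [h2] at h
      omega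
  have e1 : (below r E G).filter (fun H => r H = n + 1) = {G} := by
    ext H
    rw [mem_filter, mem_below, mem_singleton]
    constructor
    · rintro ⟨⟨a1, a2⟩, a3⟩
      exact fl_eq hr a1 g1 a2 (by rw [a3, g2])
    · rintro rfl; exact ⟨⟨g1, subset_rfl⟩, g2⟩
  rw [e0, e1, sum_singleton, sum_singleton]
  congr 2
  refine sum_congr rfl fun k _ => sum_congr ?_ fun _ _ => rfl
  ext H
  rw [mem_filter, mem_filter, mem_below, mem_lv]
  tauto

lemma empty_fl (hr : IsRk r) (lp : Lp r E) : (∅ : Finset α) ∈ fl r E := by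
  refine (mem_fl hr).2 ⟨empty_subset _, fun e he h => ?_⟩
  have h1 := lp e he
  rw [hr.empty] at h
  have h2 : insert e (∅ : Finset α) = {e} := rfl
  rw [h2] at h
  omega

lemma E_fl : E ∈ fl r E := mem_filter.2 ⟨mem_powerset.2 subset_rfl, fun _ he h => absurd he h⟩

/-- alternating sum of the Möbius invariants -/
lemma mu_sum (hr : IsRk r) {G : Finset α} (hG : G ∈ fl r E) (h : G.Nonempty) :
    ∑ F ∈ below r E G, (-1 : ℤ) ^ r F * mu r F = 0 := by
  have h1 := sum_powerset_neg_one_pow_card_of_nonempty h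
  have hmaps : ∀ X ∈ G.powerset, cl r E X ∈ below r E G := by
    intro X hX
    have hXG := mem_powerset.1 hX
    refine mem_below.2 ⟨cl_mem_fl hr (hXG.trans (fl_sub hG)), ?_⟩
    intro x hx
    obtain ⟨h2, h3⟩ := mem_cl.1 hx
    refine ((mem_fl hr).1 hG).2 x h2 ?_
    have h4 := cl_le hr hXG h3.le
    have h5 := hr.mono G (insert x G) (subset_insert _ _)
    omega
  rw [← sum_fiberwise_of_maps_to hmaps] at h1
  rw [← h1]
  refine sum_congr rfl fun F hF => ?_
  obtain ⟨a1, a2⟩ := mem_below.1 hF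
  have e1 : G.powerset.filter (fun X => cl r E X = F) = F.powerset.filter (fun X => r X = r F) := by
    ext X
    rw [mem_filter, mem_filter, mem_powerset, mem_powerset]
    constructor
    · rintro ⟨b1, rfl⟩
      have hXE := b1.trans (fl_sub hG)
      exact ⟨sub_cl hXE, (rk_cl hr hXE).symm⟩
    · rintro ⟨b1, b2⟩
      exact ⟨b1.trans a2, cl_eq_of_fl hr a1 b1 b2⟩
  rw [e1]
  unfold mu
  rw [← mul_assoc, ← mul_pow]
  norm_num

section dat

variable {y v : Finset α → ℤ[X]} (d : Dat r E y v)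
include d

lemma Dat.coeff_pal {H : Finset α} (hH : H ∈ fl r E) {i : ℕ} (hi : i ≤ r H) :
    (y H).coeff i = (y H).coeff (r H - i) := by
  have h1 := congrArg (fun p => p.coeff i) (d.pal H hH)
  simp only [coeff_reflect] at h1
  rw [revAt_le hi] at h1
  exact h1.symm

lemma Dat.coeff_high {H : Finset α} (hH : H ∈ fl r E) {i : ℕ} (hi : r H < i) :
    (y H).coeff i = 0 :=
  coeff_eq_zero_of_natDegree_lt (lt_of_le_of_lt (d.deg H hH) hi)

lemma Dat.coeff_sum {G : Finset α} (hG : G ∈ fl r E) (h0 : 0 < r G) {i : ℕ} (hi : 2 * i ≤ r G) :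
    ∑ H ∈ below r E G, (y H).coeff i = 0 := by
  have h1 := congrArg (fun p => p.coeff i) (d.sum G hG)
  simp only [finsetSum_coeff, coeff_reflect] at h1
  rw [revAt_le (by omega)] at h1
  rw [h1]
  apply coeff_eq_zero_of_natDegree_lt
  have := d.vdeg G hG h0
  omega

/-- the constant terms are the Möbius invariants -/
lemma Dat.coeff_zero (hr : IsRk r) (lp : Lp r E) : ∀ (n : ℕ) (H : Finset α), H ∈ fl r E → r H = n →
    (y H).coeff 0 = (-1) ^ r H * mu r H := by
  intro n
  induction n using Nat.strong_induction_on with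
  | _ n ih =>
    intro H hH hn
    rcases Nat.eq_zero_or_pos n with h0 | h0
    · have h1 : H = ∅ := by
        rw [eq_empty_iff_forall_notMem]
        intro e he
        have h1 := lp e (fl_sub hH he)
        have h2 := hr.mono {e} H (singleton_subset_iff.2 he)
        omega
      rw [d.bot H hH (by omega), h1, mu_empty hr, hr.empty]
      simp
    · have h1 := d.coeff_sum hH (by omega) (i := 0) (by omega)
      have hne : H.Nonempty := by
        rw [nonempty_iff_ne_empty]
        rintro rfl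
        rw [hr.empty] at hn
        omega
      have h2 := mu_sum hr hH hne
      have hmem : H ∈ below r E H := mem_below.2 ⟨hH, subset_rfl⟩
      rw [← add_sum_erase _ _ hmem] at h1 h2
      have h3 : ∑ F ∈ (below r E H).erase H, (y F).coeff 0 =
          ∑ F ∈ (below r E H).erase H, (-1 : ℤ) ^ r F * mu r F := by
        refine sum_congr rfl fun F hF => ?_
        obtain ⟨a1, a2⟩ := mem_erase.1 hF
        obtain ⟨a3, a4⟩ := mem_below.1 a2
        have a5 := hr.mono F H a4
        have a6 : r F ≠ r H := fun h => a1 (fl_eq hr a3 hH a4 h)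
        exact ih (r F) (by omega) F a3 rfl
      rw [h3] at h1
      linarith

end dat

/-- number of points -/
def np (r : Finset α → ℕ) (E l : Finset α) : ℤ := (((lv r E 1).filter (fun p => p ⊆ l)).card : ℤ)

/-- number of lines -/
def nl (r : Finset α → ℕ) (E P : Finset α) : ℤ := (((lv r E 2).filter (fun l => l ⊆ P)).card : ℤ)

section ranks

variable {y v : Finset α → ℤ[X]} (d : Dat r E y v)
include d

lemma Dat.r0 (hr : IsRk r) (lp : Lp r E) : y ∅ = 1 := d.bot ∅ (empty_fl hr lp) hr.empty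

lemma Dat.r1 (hr : IsRk r) (lp : Lp r E) {p : Finset α} (hp : p ∈ lv r E 1) :
    (y p).coeff 0 = -1 ∧ (y p).coeff 1 = -1 ∧ (y p).coeff 2 = 0 := by
  obtain ⟨h1, h2⟩ := mem_lv.1 hp
  have a := d.coeff_sum h1 (by omega) (i := 0) (by omega)
  rw [sum_below hr lp hp, d.r0 hr lp] at a
  simp at a
  have b := d.coeff_pal h1 (i := 1) (by omega)
  rw [h2] at b
  refine ⟨by linarith, by rw [b]; linarith, d.coeff_high h1 (by omega)⟩

lemma Dat.r2 (hr : IsRk r) (lp : Lp r E) {l : Finset α} (hl : l ∈ lv r E 2) :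
    (y l).coeff 0 = np r E l - 1 ∧ (y l).coeff 1 = np r E l ∧ (y l).coeff 2 = np r E l - 1 := by
  obtain ⟨h1, h2⟩ := mem_lv.1 hl
  have a := d.coeff_sum h1 (by omega) (i := 0) (by omega)
  have b := d.coeff_sum h1 (by omega) (i := 1) (by omega)
  have c := d.coeff_pal h1 (i := 2) (by omega)
  rw [h2] at c
  rw [sum_below hr lp hl, d.r0 hr lp, sum_range_one] at a b
  rw [sum_congr rfl fun p hp => (d.r1 hr lp (mem_filter.1 hp).1).1] at a
  rw [sum_congr rfl fun p hp => (d.r1 hr lp (mem_filter.1 hp).1).2.1] at b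
  simp only [sum_const, smul_eq_mul, nsmul_eq_mul, coeff_one] at a b
  norm_num at a b
  unfold np
  refine ⟨by linarith, by linarith, ?_⟩
  rw [c]
  norm_num
  linarith

lemma Dat.r3 (hr : IsRk r) (lp : Lp r E) {P : Finset α} (hP : P ∈ lv r E 3) :
    (y P).coeff 0 - (y P).coeff 1 = nl r E P - 1 ∧ (y P).coeff 2 = (y P).coeff 1 := by
  obtain ⟨h1, h2⟩ := mem_lv.1 hP
  have a := d.coeff_sum h1 (by omega) (i := 0) (by omega)
  have b := d.coeff_sum h1 (by omega) (i := 1) (by omega)
  have c := d.coeff_pal h1 (i := 2) (by omega)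
  rw [h2] at c
  rw [sum_below hr lp hP, d.r0 hr lp, sum_range_succ, sum_range_one] at a b
  rw [sum_congr rfl fun p hp => (d.r1 hr lp (mem_filter.1 hp).1).1,
    sum_congr rfl fun p hp => (d.r2 hr lp (mem_filter.1 hp).1).1] at a
  rw [sum_congr rfl fun p hp => (d.r1 hr lp (mem_filter.1 hp).1).2.1,
    sum_congr rfl fun p hp => (d.r2 hr lp (mem_filter.1 hp).1).2.1] at b
  simp only [sum_const, smul_eq_mul, nsmul_eq_mul, coeff_one, sum_sub_distrib] at a b
  norm_num at a b c
  unfold nl
  exact ⟨by linarith, c⟩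

lemma Dat.r4 (hr : IsRk r) (lp : Lp r E) (h4 : r E = 4) :
    (y E).coeff 1 - (y E).coeff 0 = 1 - ((lv r E 2).card : ℤ) + ∑ P ∈ lv r E 3, (nl r E P - 1) ∧
    (y E).coeff 2 - (y E).coeff 1 = (lv r E 2).card - (lv r E 1).card := by
  have hE : E ∈ lv r E 4 := mem_lv.2 ⟨E_fl, h4⟩
  have a := d.coeff_sum (E_fl (r := r) (E := E)) (by omega) (i := 0) (by omega)
  have b := d.coeff_sum (E_fl (r := r) (E := E)) (by omega) (i := 1) (by omega)
  have c := d.coeff_sum (E_fl (r := r) (E := E)) (by omega) (i := 2) (by omega)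
  have hf : ∀ k, (lv r E k).filter (fun H => H ⊆ E) = lv r E k := by
    intro k
    rw [filter_eq_self]
    intro H hH
    exact fl_sub (mem_lv.1 hH).1
  rw [sum_below hr lp hE, d.r0 hr lp, sum_range_succ, sum_range_succ, sum_range_one] at a b c
  rw [hf, hf, hf] at a b c
  rw [sum_congr rfl fun p hp => (d.r1 hr lp hp).1,
    sum_congr rfl fun p hp => (d.r2 hr lp hp).1] at a
  rw [sum_congr rfl fun p hp => (d.r1 hr lp hp).2.1,
    sum_congr rfl fun p hp => (d.r2 hr lp hp).2.1] at b
  rw [sum_congr rfl fun p hp => (d.r1 hr lp hp).2.2,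
    sum_congr rfl fun p hp => (d.r2 hr lp hp).2.2,
    sum_congr rfl fun p hp => (d.r3 hr lp hp).2] at c
  have e : ∑ P ∈ lv r E 3, (y P).coeff 0 =
      ∑ P ∈ lv r E 3, (y P).coeff 1 + ∑ P ∈ lv r E 3, (nl r E P - 1) := by
    rw [← sum_add_distrib]
    refine sum_congr rfl fun P hP => ?_
    have := (d.r3 hr lp hP).1
    linarith
  simp only [sum_const, smul_eq_mul, nsmul_eq_mul, coeff_one, sum_sub_distrib] at a b c e ⊢
  norm_num at a b c e ⊢
  constructor
  · linarith
  · linarith

end ranks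

/-- sequences with the required properties -/
lemma logc {n : ℕ} (hn : n ≤ 4) (a : ℕ → ℤ) (h0 : ∀ i, n < i → a i = 0)
    (hp : ∀ i, i ≤ n → a i = a (n - i)) (hpos : 0 < a 0) (h1 : 2 ≤ n → a 0 ≤ a 1)
    (h2 : n = 4 → a 1 ≤ a 2 ∧ a 0 * a 2 ≤ a 1 ^ 2) :
    (∀ i, a i * a (i + 2) ≤ a (i + 1) ^ 2) ∧ (∀ i, i ≤ n → 0 < a i) ∧
      (∀ i, 2 * (i + 1) ≤ n → a i ≤ a (i + 1)) := by
  have big : ∀ i, n < i + 2 → a i * a (i + 2) ≤ a (i + 1) ^ 2 := by
    intro i hi
    rw [h0 (i + 2) hi, mul_zero]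
    positivity
  interval_cases n
  · refine ⟨fun i => big i (by omega), ?_, ?_⟩
    · intro i hi; interval_cases i; exact hpos
    · intro i hi; omega
  · have p1 := hp 1 le_rfl
    norm_num at p1
    refine ⟨fun i => big i (by omega), ?_, ?_⟩
    · intro i hi; interval_cases i <;> omega
    · intro i hi; omega
  · have p2 := hp 2 le_rfl
    norm_num at p2
    have q := h1 le_rfl
    refine ⟨fun i => ?_, ?_, ?_⟩
    · by_cases hi : 2 < i + 2
      · exact big i hi
      · have : i = 0 := by omega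
        subst this
        norm_num
        rw [p2]
        nlinarith
    · intro i hi; interval_cases i <;> omega
    · intro i hi
      have : i = 0 := by omega
      subst this
      exact q
  · have p3 := hp 3 le_rfl
    have p2 := hp 2 (by omega)
    norm_num at p2 p3
    have q := h1 (by omega)
    refine ⟨fun i => ?_, ?_, ?_⟩
    · by_cases hi : 3 < i + 2
      · exact big i hi
      · have : i = 0 ∨ i = 1 := by omega
        rcases this with rfl | rfl
        · norm_num; rw [p2]; nlinarith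
        · norm_num; rw [p2, p3]; nlinarith
    · intro i hi; interval_cases i <;> omega
    · intro i hi
      have : i = 0 := by omega
      subst this
      exact q
  · have p4 := hp 4 le_rfl
    have p3 := hp 3 (by omega)
    norm_num at p3 p4
    have q := h1 (by omega)
    obtain ⟨q1, q2⟩ := h2 rfl
    refine ⟨fun i => ?_, ?_, ?_⟩
    · by_cases hi : 4 < i + 2
      · exact big i hi
      · have : i = 0 ∨ i = 1 ∨ i = 2 := by omega
        rcases this with rfl | rfl | rfl
        · norm_num; exact q2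
        · norm_num; rw [p3]; nlinarith
        · norm_num; rw [p3, p4]; linarith
    · intro i hi; interval_cases i <;> omega
    · intro i hi
      have : i = 0 ∨ i = 1 := by omega
      rcases this with rfl | rfl
      · exact q
      · exact q1

/-- **Rank at most 4.** -/
theorem dat_main (hr : IsRk r) (lp : Lp r E) (h4 : r E ≤ 4) {y v : Finset α → ℤ[X]}
    (d : Dat r E y v) (a : ℕ → ℤ) (ha : ∀ i, a i = (-1) ^ r E * (y E).coeff i) :
    (∀ i, a i * a (i + 2) ≤ a (i + 1) ^ 2) ∧ (∀ i, i ≤ r E → 0 < a i) ∧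
      (∀ i, 2 * (i + 1) ≤ r E → a i ≤ a (i + 1)) := by
  have hE := E_fl (r := r) (E := E)
  have hsq : ((-1 : ℤ) ^ r E) * (-1) ^ r E = 1 := by rw [← mul_pow]; norm_num
  have hpos : 0 < a 0 := by
    rw [ha, d.coeff_zero hr lp _ E hE rfl, ← mul_assoc, hsq, one_mul]
    have := mu_pos E.card r hr E rfl (fun e he => rk_one hr lp he)
    omega
  have hW : 3 ≤ r E → 1 ≤ (lv r E 1).card := by
    intro h3
    obtain ⟨e, he, -⟩ := ex_out hr (show r ∅ < r E by rw [hr.empty]; omega)
    exact card_pos.2 ⟨_, pt_lv hr lp he⟩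
  refine logc h4 a ?_ ?_ hpos ?_ ?_
  · intro i hi
    rw [ha, d.coeff_high hE hi, mul_zero]
  · intro i hi
    rw [ha, ha, d.coeff_pal hE hi]
  · intro h2
    have hcase : r E = 2 ∨ r E = 3 ∨ r E = 4 := by omega
    rcases hcase with h | h | h
    · have h5 := d.r2 hr lp (mem_lv.2 ⟨hE, h⟩)
      rw [ha, ha, h, h5.1, h5.2.1]
      norm_num
    · have h5 := d.r3 hr lp (mem_lv.2 ⟨hE, h⟩)
      have h6 := W1_le_W2 hr lp (by omega)
      have h7 := hW (by omega)
      have h8 : nl r E E = (lv r E 2).card := by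
        unfold nl
        rw [filter_true_of_mem fun H hH => fl_sub (mem_lv.1 hH).1]
      rw [h8] at h5
      rw [ha, ha, h]
      have : (1 : ℤ) ≤ (lv r E 2).card := by exact_mod_cast (h7.trans h6)
      have := h5.1
      norm_num
      linarith
    · have h5 := (d.r4 hr lp h)
      have h6 := W1_le_W2 hr lp (by omega)
      have h7 := main hr lp h
      rw [ha, ha, h]
      have h8 : ((lv r E 1).card : ℤ) ≤ (lv r E 2).card := by exact_mod_cast h6
      have h9 : ∑ P ∈ lv r E 3, (nl r E P - 1) =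
        ∑ P ∈ lv r E 3, ((((lv r E 2).filter (fun l => l ⊆ P)).card : ℤ) - 1) := rfl
      norm_num
      linarith [h5.1, h5.2]
  · intro h
    have h5 := (d.r4 hr lp h)
    have h6 := W1_le_W2 hr lp (by omega)
    have h7 := main hr lp h
    have h8 : ((lv r E 1).card : ℤ) ≤ (lv r E 2).card := by exact_mod_cast h6
    have h9 : ∑ P ∈ lv r E 3, (nl r E P - 1) =
      ∑ P ∈ lv r E 3, ((((lv r E 2).filter (fun l => l ⊆ P)).card : ℤ) - 1) := rfl
    have e0 : a 0 = (y E).coeff 0 := by rw [ha, h]; norm_num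
    have e1 : a 1 = (y E).coeff 1 := by rw [ha, h]; norm_num
    have e2 : a 2 = (y E).coeff 2 := by rw [ha, h]; norm_num
    rw [← e0, ← e1, ← e2] at h5
    obtain ⟨h10, h11⟩ := h5
    obtain ⟨g1, hg1⟩ : ∃ g1, g1 = a 1 - a 0 := ⟨_, rfl⟩
    obtain ⟨g2, hg2⟩ : ∃ g2, g2 = a 2 - a 1 := ⟨_, rfl⟩
    have h12 : g2 ≤ g1 := by linarith
    have h13 : 0 ≤ g2 := by linarith
    refine ⟨by linarith, ?_⟩
    have e3 : a 1 = a 0 + g1 := by linarith
    have e4 : a 2 = a 0 + g1 + g2 := by linarith
    rw [e3, e4]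
    nlinarith [mul_nonneg hpos.le (sub_nonneg.2 h12), sq_nonneg g1]

end Pool.Agent.Run7.h453.IZ
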