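import Mathlib

set_option autoImplicit false

/-!
Connected bipartite relations (in functional form) have enough edges; points and lines.
-/

namespace Pool.Agent.Run7.h453.IZ

open Finset

/-- A connected bipartite relation has at least (number of vertices) - 1 edges. -/
theorem bip {β γ : Type} [DecidableEq β] [DecidableEq γ] (A : Finset β) (B : Finset γ)
    (rel : β → γ → Prop) [∀ a b, Decidable (rel a b)]
    (hconn : ∀ (f : β → ℚ) (g : γ → ℚ), (∀ a ∈ A, ∀ b ∈ B, rel a b → f a = g b) →
      ∃ c, (∀ a ∈ A, f a = c) ∧ (∀ b ∈ B, g b = c)) :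
    A.card + B.card ≤ (∑ b ∈ B, (A.filter (fun a => rel a b)).card) + 1 := by
  classical
  set R : Finset (β × γ) := (A ×ˢ B).filter (fun x => rel x.1 x.2) with hR
  have hRc : R.card = ∑ b ∈ B, (A.filter (fun a => rel a b)).card := by
    rw [hR, card_filter, sum_product_right]
    refine sum_congr rfl fun b _ => ?_
    rw [card_filter]
  rw [← hRc]
  let T : ((A ⊕ B) → ℚ) →ₗ[ℚ] (R → ℚ) :=
    { toFun := fun h x => h (Sum.inl ⟨x.1.1, (mem_product.1 (mem_filter.1 x.2).1).1⟩) -
        h (Sum.inr ⟨x.1.2, (mem_product.1 (mem_filter.1 x.2).1).2⟩)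
      map_add' := by
        intro h k; funext x; simp only [Pi.add_apply]; ring
      map_smul' := by
        intro c h; funext x; simp only [Pi.smul_apply, smul_eq_mul, RingHom.id_apply]; ring }
  have h1 := LinearMap.finrank_range_add_finrank_ker T
  have h2 : Module.finrank ℚ ((A ⊕ B) → ℚ) = A.card + B.card := by
    rw [Module.finrank_fintype_fun_eq_card, Fintype.card_sum, Fintype.card_coe, Fintype.card_coe]
  have h3 : Module.finrank ℚ (LinearMap.range T) ≤ R.card := by
    have := Submodule.finrank_le (LinearMap.range T)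
    rwa [Module.finrank_fintype_fun_eq_card, Fintype.card_coe] at this
  have h4 : LinearMap.ker T ≤ Submodule.span ℚ {(fun _ => (1 : ℚ))} := by
    intro h hh
    rw [LinearMap.mem_ker] at hh
    let f : β → ℚ := fun a => if ha : a ∈ A then h (Sum.inl ⟨a, ha⟩) else 0
    let g : γ → ℚ := fun b => if hb : b ∈ B then h (Sum.inr ⟨b, hb⟩) else 0
    obtain ⟨c, hc1, hc2⟩ := hconn f g (by
      intro a ha b hb hab
      have h5 := congrFun hh ⟨(a, b), mem_filter.2 ⟨mem_product.2 ⟨ha, hb⟩, hab⟩⟩
      have h6 : h (Sum.inl ⟨a, ha⟩) - h (Sum.inr ⟨b, hb⟩) = 0 := h5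
      show (if ha : a ∈ A then h (Sum.inl ⟨a, ha⟩) else 0) =
        (if hb : b ∈ B then h (Sum.inr ⟨b, hb⟩) else 0)
      rw [dif_pos ha, dif_pos hb]
      linarith)
    rw [Submodule.mem_span_singleton]
    refine ⟨c, ?_⟩
    funext x
    rcases x with ⟨a, ha⟩ | ⟨b, hb⟩
    · have h5 : (if ha : a ∈ A then h (Sum.inl ⟨a, ha⟩) else 0) = c := hc1 a ha
      rw [dif_pos ha] at h5
      simp [h5]
    · have h5 : (if hb : b ∈ B then h (Sum.inr ⟨b, hb⟩) else 0) = c := hc2 b hb
      rw [dif_pos hb] at h5
      simp [h5]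
  have h5 : Module.finrank ℚ (LinearMap.ker T) ≤ 1 := by
    refine (Submodule.finrank_mono h4).trans ?_
    refine (finrank_span_le_card _).trans ?_
    simp
  omega

/-- Linear spaces: at least as many lines as points. -/
theorem lines_ge {β γ : Type} [DecidableEq β] [DecidableEq γ] (A : Finset β) (B : Finset γ)
    (rel : β → γ → Prop) [∀ a b, Decidable (rel a b)]
    (h1 : ∀ a ∈ A, ∀ a' ∈ A, a ≠ a' → (B.filter (fun b => rel a b ∧ rel a' b)).card = 1)
    (h2 : ∀ a ∈ A, 2 ≤ (B.filter (fun b => rel a b)).card) : A.card ≤ B.card := by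
  classical
  let T : (A → ℚ) →ₗ[ℚ] (B → ℚ) :=
    { toFun := fun f b => ∑ a : A, if rel a.1 b.1 then f a else 0
      map_add' := by
        intro f g; funext b
        rw [Pi.add_apply, ← sum_add_distrib]
        refine sum_congr rfl fun a _ => ?_
        split_ifs <;> simp
      map_smul' := by
        intro c f; funext b
        rw [Pi.smul_apply, smul_eq_mul, RingHom.id_apply, mul_sum]
        refine sum_congr rfl fun a _ => ?_
        split_ifs <;> simp }
  have hinj : Function.Injective T := by
    rw [← LinearMap.ker_eq_bot, LinearMap.ker_eq_bot']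
    intro f hf
    have e1 : ∑ b : B, (T f b) ^ 2 = 0 := by
      rw [hf]; simp
    have e2 : ∑ b : B, (T f b) ^ 2 =
        ∑ a : A, ∑ a' : A, f a * f a' * ((B.filter (fun b => rel a.1 b ∧ rel a'.1 b)).card : ℚ) := by
      have e3 : ∀ b : B, (T f b) ^ 2 = ∑ a : A, ∑ a' : A,
          f a * f a' * (if rel a.1 b.1 ∧ rel a'.1 b.1 then (1 : ℚ) else 0) := by
        intro b
        show (∑ a : A, if rel a.1 b.1 then f a else 0) ^ 2 = _
        rw [sq, sum_mul_sum]
        refine sum_congr rfl fun a _ => sum_congr rfl fun a' _ => ?_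
        by_cases ha : rel a.1 b.1 <;> by_cases ha' : rel a'.1 b.1 <;> simp [ha, ha']
      rw [sum_congr rfl fun b _ => e3 b, sum_comm]
      refine sum_congr rfl fun a _ => ?_
      rw [sum_comm]
      refine sum_congr rfl fun a' _ => ?_
      rw [← mul_sum]
      congr 1
      rw [card_filter]
      push_cast
      exact Finset.sum_coe_sort B (fun b => if rel a.1 b ∧ rel a'.1 b then (1 : ℚ) else 0)
    have e4 : ∀ a : A, ∑ a' : A, f a * f a' * ((B.filter (fun b => rel a.1 b ∧ rel a'.1 b)).card : ℚ) =
        f a * ∑ a' : A, f a' + f a ^ 2 * (((B.filter (fun b => rel a.1 b)).card : ℚ) - 1) := by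
      intro a
      have e5 : ∀ a' : A, f a * f a' * ((B.filter (fun b => rel a.1 b ∧ rel a'.1 b)).card : ℚ) =
          f a * f a' + if a' = a then f a ^ 2 * (((B.filter (fun b => rel a.1 b)).card : ℚ) - 1) else 0 := by
        intro a'
        by_cases h : a' = a
        · rw [if_pos h, h]
          simp only [and_self]
          ring
        · rw [if_neg h, h1 a.1 a.2 a'.1 a'.2 (fun h' => h (Subtype.ext h'.symm))]
          push_cast; ring
      rw [sum_congr rfl fun a' _ => e5 a', sum_add_distrib, sum_ite_eq' univ a, if_pos (mem_univ a),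
        ← mul_sum]
    rw [e2, sum_congr rfl fun a _ => e4 a, sum_add_distrib, ← sum_mul] at e1
    have e6 : ∀ a : A, 0 ≤ f a ^ 2 * (((B.filter (fun b => rel a.1 b)).card : ℚ) - 1) := by
      intro a
      have := h2 a.1 a.2
      have h3 : (2 : ℚ) ≤ ((B.filter (fun b => rel a.1 b)).card : ℚ) := by exact_mod_cast this
      have := sq_nonneg (f a)
      nlinarith
    have e7 : ∑ a : A, f a ^ 2 * (((B.filter (fun b => rel a.1 b)).card : ℚ) - 1) = 0 := by
      have h3 := sum_nonneg fun a (_ : a ∈ (univ : Finset A)) => e6 a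
      have h4 := mul_self_nonneg (∑ a : A, f a)
      linarith
    rw [sum_eq_zero_iff_of_nonneg fun a _ => e6 a] at e7
    funext a
    have h3 := e7 a (mem_univ a)
    have h4 : (2 : ℚ) ≤ ((B.filter (fun b => rel a.1 b)).card : ℚ) := by exact_mod_cast h2 a.1 a.2
    rcases mul_eq_zero.1 h3 with h5 | h5
    · exact pow_eq_zero_iff (two_ne_zero) |>.1 h5
    · linarith
  have h3 := LinearMap.finrank_le_finrank_of_injective hinj
  rwa [Module.finrank_fintype_fun_eq_card, Module.finrank_fintype_fun_eq_card, Fintype.card_coe,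
    Fintype.card_coe] at h3

end Pool.Agent.Run7.h453.IZ
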