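import Pool.Agent.K7.H62.GG_WEIS
import Pool.Agent.Run7.h453.IZ.Bip

set_option autoImplicit false

/-!
Points, lines and planes of a loopless matroid of rank 4.
-/

namespace Pool.Agent.Run7.h453.IZ

open Finset DC813 Pool.Agent.W573.RF
open Pool.Agent.K7.H84.GG (fl cl Lp)
open Pool.Agent.K7.H62.GGWEIS

variable {α : Type} [DecidableEq α]

/-- the flats of rank `k` -/
def lv (r : Finset α → ℕ) (E : Finset α) (k : ℕ) : Finset (Finset α) :=
  (fl r E).filter (fun F => r F = k)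

/-- join of a flat with an element -/
abbrev jn (r : Finset α → ℕ) (E F : Finset α) (e : α) : Finset α := cl r E (insert e F)

variable {r : Finset α → ℕ} {E : Finset α}

lemma mem_lv {k : ℕ} {F : Finset α} : F ∈ lv r E k ↔ F ∈ fl r E ∧ r F = k := mem_filter

lemma fl_sub {F : Finset α} (hF : F ∈ fl r E) : F ⊆ E := mem_powerset.1 (mem_filter.1 hF).1

lemma rk_ins (hr : IsRk r) {F : Finset α} (hF : F ∈ fl r E) {e : α} (he : e ∈ E) (h : e ∉ F) :
    r (insert e F) = r F + 1 := by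
  have h1 := (mem_filter.1 hF).2 e he h
  have h2 := hr.insert_le F e
  omega

lemma jn_fl (hr : IsRk r) {F : Finset α} (hF : F ∈ fl r E) {e : α} (he : e ∈ E) :
    jn r E F e ∈ fl r E := cl_mem_fl hr (insert_subset he (fl_sub hF))

lemma jn_rk (hr : IsRk r) {F : Finset α} (hF : F ∈ fl r E) {e : α} (he : e ∈ E) (h : e ∉ F) :
    r (jn r E F e) = r F + 1 := by
  rw [jn, rk_cl hr (insert_subset he (fl_sub hF)), rk_ins hr hF he h]

lemma sub_jn (_hr : IsRk r) {F : Finset α} (hF : F ∈ fl r E) {e : α} (he : e ∈ E) :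
    F ⊆ jn r E F e := (subset_insert _ _).trans (sub_cl (insert_subset he (fl_sub hF)))

lemma mem_jn (_hr : IsRk r) {F : Finset α} (hF : F ∈ fl r E) {e : α} (he : e ∈ E) :
    e ∈ jn r E F e := sub_cl (insert_subset he (fl_sub hF)) (mem_insert_self _ _)

lemma jn_lv (hr : IsRk r) {k : ℕ} {F : Finset α} (hF : F ∈ lv r E k) {e : α} (he : e ∈ E)
    (h : e ∉ F) : jn r E F e ∈ lv r E (k + 1) := by
  obtain ⟨h1, h2⟩ := mem_lv.1 hF
  exact mem_lv.2 ⟨jn_fl hr h1 he, by rw [jn_rk hr h1 he h, h2]⟩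

lemma jn_uniq (hr : IsRk r) {k : ℕ} {F G : Finset α} (hF : F ∈ lv r E k) (hG : G ∈ lv r E (k + 1))
    {e : α} (he : e ∈ E) (h : e ∉ F) (hFG : F ⊆ G) (heG : e ∈ G) : jn r E F e = G := by
  obtain ⟨h1, h2⟩ := mem_lv.1 hF
  obtain ⟨h3, h4⟩ := mem_lv.1 hG
  exact cl_eq_of_fl hr h3 (insert_subset heG hFG) (by rw [rk_ins hr h1 he h, h2, h4])

/-- a flat contained in another one of the same rank is equal to it -/
lemma fl_eq (hr : IsRk r) {F G : Finset α} (hF : F ∈ fl r E) (hG : G ∈ fl r E) (h : F ⊆ G)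
    (hk : r F = r G) : F = G := by
  have h1 := cl_eq_of_fl hr hG h hk
  have h2 := cl_eq_of_fl hr hF subset_rfl rfl
  rw [← h1, h2]

lemma ex_out (hr : IsRk r) {F : Finset α} (h : r F < r E) : ∃ e ∈ E, e ∉ F := by
  by_contra hcon
  push Not at hcon
  have := hr.mono E F hcon
  omega

lemma ex_diff (hr : IsRk r) {F G : Finset α} (h : r F < r G) : ∃ e ∈ G, e ∉ F := by
  by_contra hcon
  push Not at hcon
  have := hr.mono G F hcon
  omega

/-- the point of an element -/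
abbrev pt (r : Finset α → ℕ) (E : Finset α) (e : α) : Finset α := cl r E {e}

lemma rk_one (hr : IsRk r) (lp : Lp r E) {e : α} (he : e ∈ E) : r {e} = 1 := by
  have h1 := lp e he
  have h2 := single_le hr e
  omega

lemma pt_lv (hr : IsRk r) (lp : Lp r E) {e : α} (he : e ∈ E) : pt r E e ∈ lv r E 1 :=
  mem_lv.2 ⟨cl_mem_fl hr (singleton_subset_iff.2 he), by
    rw [pt, rk_cl hr (singleton_subset_iff.2 he), rk_one hr lp he]⟩

lemma mem_pt {e : α} (he : e ∈ E) : e ∈ pt r E e :=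
  sub_cl (singleton_subset_iff.2 he) (mem_singleton_self e)

lemma pt_eq (hr : IsRk r) (lp : Lp r E) {p : Finset α} (hp : p ∈ lv r E 1) {e : α} (he : e ∈ p) :
    pt r E e = p := by
  obtain ⟨h1, h2⟩ := mem_lv.1 hp
  exact cl_eq_of_fl hr h1 (singleton_subset_iff.2 he) (by rw [rk_one hr lp (fl_sub h1 he), h2])

lemma pt_sub (hr : IsRk r) {F : Finset α} (hF : F ∈ fl r E) {e : α} (he : e ∈ F) :
    pt r E e ⊆ F := by
  intro x hx
  obtain ⟨h1, h2⟩ := mem_cl.1 hx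
  refine ((mem_fl hr).1 hF).2 x h1 ?_
  have h3 := cl_le hr (singleton_subset_iff.2 he) h2.le
  have h4 := hr.mono F (insert x F) (subset_insert _ _)
  omega

lemma ex_mem (hr : IsRk r) {k : ℕ} {F : Finset α} (hF : F ∈ lv r E (k + 1)) : ∃ e, e ∈ F := by
  by_contra hcon
  push Not at hcon
  have h1 : F = ∅ := eq_empty_iff_forall_notMem.2 hcon
  have h2 := (mem_lv.1 hF).2
  rw [h1, hr.empty] at h2
  omega

lemma pt_sub_iff (hr : IsRk r) {F : Finset α} (hF : F ∈ fl r E) {e : α} (he : e ∈ E) :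
    pt r E e ⊆ F ↔ e ∈ F := ⟨fun h => h (mem_pt he), fun h => pt_sub hr hF h⟩

/-! ### lines through two elements -/

/-- two lines with two independent elements in common are equal -/
lemma line_eq (hr : IsRk r) (lp : Lp r E) {l m : Finset α} (hl : l ∈ lv r E 2) (hm : m ∈ lv r E 2)
    {a b : α} (ha : a ∈ E) (hb : b ∈ E) (hab : b ∉ pt r E a) (h1 : a ∈ l) (h2 : b ∈ l)
    (h3 : a ∈ m) (h4 : b ∈ m) : l = m := by
  rw [← jn_uniq hr (pt_lv hr lp ha) hl hb hab (pt_sub hr (mem_lv.1 hl).1 h1) h2,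
    jn_uniq hr (pt_lv hr lp ha) hm hb hab (pt_sub hr (mem_lv.1 hm).1 h3) h4]

lemma pt_symm (hr : IsRk r) (lp : Lp r E) {a b : α} (ha : a ∈ E) (hb : b ∈ E)
    (h : b ∈ pt r E a) : a ∈ pt r E b := by
  rw [pt_eq hr lp (pt_lv hr lp ha) h]
  exact mem_pt ha

/-- a flat of larger rank contains a line of it when it contains two independent elements -/
lemma line_sub (hr : IsRk r) (lp : Lp r E) {l G : Finset α} (hl : l ∈ lv r E 2) (hG : G ∈ fl r E)
    {a b : α} (hab : b ∉ pt r E a) (h1 : a ∈ l) (h2 : b ∈ l) (h3 : a ∈ G) (h4 : b ∈ G) :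
    l ⊆ G := by
  have ha := fl_sub (mem_lv.1 hl).1 h1
  have hb := fl_sub (mem_lv.1 hl).1 h2
  rw [← jn_uniq hr (pt_lv hr lp ha) hl hb hab (pt_sub hr (mem_lv.1 hl).1 h1) h2]
  intro x hx
  obtain ⟨h5, h6⟩ := mem_cl.1 hx
  refine ((mem_fl hr).1 hG).2 x h5 ?_
  have h7 := cl_le hr (insert_subset h4 (pt_sub hr hG h3)) h6.le
  have h8 := hr.mono G (insert x G) (subset_insert _ _)
  omega

lemma two_on_line (hr : IsRk r) (lp : Lp r E) {l : Finset α} (hl : l ∈ lv r E 2) {a : α}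
    (ha : a ∈ E) : ∃ b ∈ l, b ∉ pt r E a := by
  apply ex_diff hr
  rw [(mem_lv.1 (pt_lv hr lp ha)).2, (mem_lv.1 hl).2]
  omega

/-! ### `W₁ ≤ W₂` -/

theorem W1_le_W2 (hr : IsRk r) (lp : Lp r E) (h3 : 3 ≤ r E) :
    (lv r E 1).card ≤ (lv r E 2).card := by
  refine lines_ge (lv r E 1) (lv r E 2) (fun p l => p ⊆ l) ?_ ?_
  · intro p hp q hq hpq
    obtain ⟨a, ha⟩ := ex_mem hr hp
    obtain ⟨b, hb⟩ := ex_mem hr hq
    have haE := fl_sub (mem_lv.1 hp).1 ha
    have hbE := fl_sub (mem_lv.1 hq).1 hb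
    have h1 : b ∉ p := by
      intro h
      exact hpq ((pt_eq hr lp hp h).symm.trans (pt_eq hr lp hq hb))
    rw [card_eq_one]
    refine ⟨jn r E p b, ?_⟩
    ext l
    rw [mem_filter, mem_singleton]
    constructor
    · rintro ⟨h2, h4, h5⟩
      exact (jn_uniq hr hp h2 hbE h1 h4 (h5 hb)).symm
    · rintro rfl
      refine ⟨jn_lv hr hp hbE h1, sub_jn hr (mem_lv.1 hp).1 hbE, ?_⟩
      rw [← pt_eq hr lp hq hb]
      exact pt_sub hr (jn_fl hr (mem_lv.1 hp).1 hbE) (mem_jn hr (mem_lv.1 hp).1 hbE)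
  · intro p hp
    have hpr := (mem_lv.1 hp).2
    obtain ⟨d, hd, hdp⟩ := ex_out hr (show r p < r E by omega)
    have hl := jn_lv hr hp hd hdp
    have hlr := (mem_lv.1 hl).2
    obtain ⟨e, he, hel⟩ := ex_out hr (show r (jn r E p d) < r E by omega)
    have hep : e ∉ p := fun h => hel (sub_jn hr (mem_lv.1 hp).1 hd h)
    have hm := jn_lv hr hp he hep
    have hne : jn r E p d ≠ jn r E p e := by
      intro h
      exact hel (h ▸ mem_jn hr (mem_lv.1 hp).1 he)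
    have h1 : ({jn r E p d, jn r E p e} : Finset (Finset α)) ⊆
        (lv r E 2).filter (fun l => p ⊆ l) := by
      intro x hx
      rw [mem_insert, mem_singleton] at hx
      rcases hx with rfl | rfl
      · exact mem_filter.2 ⟨hl, sub_jn hr (mem_lv.1 hp).1 hd⟩
      · exact mem_filter.2 ⟨hm, sub_jn hr (mem_lv.1 hp).1 he⟩
    have h2 := card_le_card h1
    rwa [card_pair hne] at h2

/-! ### planes through `a` -/

theorem through (hr : IsRk r) (lp : Lp r E) (h4 : r E = 4) {a : α} (ha : a ∈ E) :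
    (lv r E 2).card + ((lv r E 3).filter (fun P => a ∈ P)).card ≤
      (∑ P ∈ (lv r E 3).filter (fun P => a ∈ P), ((lv r E 2).filter (fun l => l ⊆ P)).card) + 1 := by
  refine bip (lv r E 2) _ (fun l P => l ⊆ P) ?_
  intro f g hfg
  have hp := pt_lv hr lp ha
  obtain ⟨b, hb, hbp⟩ := ex_out hr (show r (pt r E a) < r E by rw [(mem_lv.1 hp).2]; omega)
  have hl0 := jn_lv hr hp hb hbp
  have ha0 : a ∈ jn r E (pt r E a) b := sub_jn hr (mem_lv.1 hp).1 hb (mem_pt ha)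
  -- lines through a
  have s1 : ∀ l ∈ lv r E 2, a ∈ l → ∀ m ∈ lv r E 2, a ∈ m → f l = f m := by
    intro l hl hal m hm ham
    by_cases hlm : l = m
    · rw [hlm]
    · have h1 : ∃ d ∈ m, d ∉ l := by
        by_contra hcon
        push Not at hcon
        exact hlm (fl_eq hr (mem_lv.1 hm).1 (mem_lv.1 hl).1 hcon
          (by rw [(mem_lv.1 hm).2, (mem_lv.1 hl).2])).symm
      obtain ⟨d, hd, hdl⟩ := h1
      have hdE := fl_sub (mem_lv.1 hm).1 hd
      have hP := jn_lv hr hl hdE hdl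
      have hlP := sub_jn hr (mem_lv.1 hl).1 hdE
      have hmP : m ⊆ jn r E l d := line_sub hr lp hm (mem_lv.1 hP).1
        (fun h => hdl (pt_sub hr (mem_lv.1 hl).1 hal h)) ham hd (hlP hal)
        (mem_jn hr (mem_lv.1 hl).1 hdE)
      have hP' : jn r E l d ∈ (lv r E 3).filter (fun P => a ∈ P) := mem_filter.2 ⟨hP, hlP hal⟩
      rw [hfg l hl _ hP' hlP, hfg m hm _ hP' hmP]
  have s2 : ∀ l ∈ lv r E 2, f l = f (jn r E (pt r E a) b) := by
    intro l hl
    by_cases hal : a ∈ l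
    · exact s1 l hl hal _ hl0 ha0
    · have hP := jn_lv hr hl ha hal
      have hlP := sub_jn hr (mem_lv.1 hl).1 ha
      have haP := mem_jn hr (mem_lv.1 hl).1 ha
      have hP' : jn r E l a ∈ (lv r E 3).filter (fun P => a ∈ P) := mem_filter.2 ⟨hP, haP⟩
      obtain ⟨c, hc, hca⟩ := two_on_line hr lp hl ha
      have hcE := fl_sub (mem_lv.1 hl).1 hc
      have hm := jn_lv hr hp hcE hca
      have ham : a ∈ jn r E (pt r E a) c := sub_jn hr (mem_lv.1 hp).1 hcE (mem_pt ha)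
      have hmP : jn r E (pt r E a) c ⊆ jn r E l a := line_sub hr lp hm (mem_lv.1 hP).1 hca ham
        (mem_jn hr (mem_lv.1 hp).1 hcE) haP (hlP hc)
      rw [hfg l hl _ hP' hlP, ← hfg _ hm _ hP' hmP]
      exact s1 _ hm ham _ hl0 ha0
  refine ⟨f (jn r E (pt r E a) b), s2, ?_⟩
  intro P hP
  obtain ⟨hP1, haP⟩ := mem_filter.1 hP
  obtain ⟨c, hc, hca⟩ := ex_diff hr (show r (pt r E a) < r P by
    rw [(mem_lv.1 hp).2, (mem_lv.1 hP1).2]; omega)
  have hcE := fl_sub (mem_lv.1 hP1).1 hc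
  have hm := jn_lv hr hp hcE hca
  have ham : a ∈ jn r E (pt r E a) c := sub_jn hr (mem_lv.1 hp).1 hcE (mem_pt ha)
  have hmP : jn r E (pt r E a) c ⊆ P := line_sub hr lp hm (mem_lv.1 hP1).1 hca ham
    (mem_jn hr (mem_lv.1 hp).1 hcE) haP hc
  rw [← hfg _ hm P hP hmP]
  exact s1 _ hm ham _ hl0 ha0

/-! ### lines and planes avoiding `a` -/

theorem avoid (hr : IsRk r) (lp : Lp r E) (h4 : r E = 4) {a : α} (ha : a ∈ E) :
    ((lv r E 2).filter (fun l => a ∉ l)).card + ((lv r E 3).filter (fun P => a ∉ P)).card ≤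
      (∑ P ∈ (lv r E 3).filter (fun P => a ∉ P),
        (((lv r E 2).filter (fun l => a ∉ l)).filter (fun l => l ⊆ P)).card) + 1 := by
  refine bip ((lv r E 2).filter (fun l => a ∉ l)) ((lv r E 3).filter (fun P => a ∉ P))
    (fun l P => l ⊆ P) ?_
  intro f g hfg
  have hp := pt_lv hr lp ha
  -- the basic move
  have s0 : ∀ l ∈ lv r E 2, a ∉ l → ∀ b ∈ l, ∀ Q ∈ lv r E 3, l ⊆ Q → a ∈ Q → ∀ c ∈ E, c ∉ Q →
      f l = f (jn r E (pt r E b) c) := by
    intro l hl hal b hb Q hQ hlQ haQ c hc hcQ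
    have hbE := fl_sub (mem_lv.1 hl).1 hb
    have hbp := pt_lv hr lp hbE
    have hcb : c ∉ pt r E b := fun h => hcQ (hlQ (pt_sub hr (mem_lv.1 hl).1 hb h))
    have hm := jn_lv hr hbp hc hcb
    have hbm : b ∈ jn r E (pt r E b) c := sub_jn hr (mem_lv.1 hbp).1 hc (mem_pt hbE)
    have hcm : c ∈ jn r E (pt r E b) c := mem_jn hr (mem_lv.1 hbp).1 hc
    have hab : a ∉ pt r E b := fun h => hal (pt_sub hr (mem_lv.1 hl).1 hb h)
    have ham : a ∉ jn r E (pt r E b) c := by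
      intro h
      have h1 : jn r E (pt r E b) c ⊆ Q := line_sub hr lp hm (mem_lv.1 hQ).1 hab hbm h (hlQ hb) haQ
      exact hcQ (h1 hcm)
    have hcl : c ∉ l := fun h => hcQ (hlQ h)
    have hR := jn_lv hr hl hc hcl
    have hlR := sub_jn hr (mem_lv.1 hl).1 hc
    have hcR := mem_jn hr (mem_lv.1 hl).1 hc
    have haR : a ∉ jn r E l c := by
      intro h
      have h1 := jn_uniq hr hl hR ha hal hlR h
      have h2 := jn_uniq hr hl hQ ha hal hlQ haQ
      rw [h2] at h1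
      exact hcQ (h1 ▸ hcR)
    have hmR : jn r E (pt r E b) c ⊆ jn r E l c :=
      line_sub hr lp hm (mem_lv.1 hR).1 hcb hbm hcm (hlR hb) hcR
    have hR' : jn r E l c ∈ (lv r E 3).filter (fun P => a ∉ P) := mem_filter.2 ⟨hR, haR⟩
    rw [hfg l (mem_filter.2 ⟨hl, hal⟩) _ hR' hlR, hfg _ (mem_filter.2 ⟨hm, ham⟩) _ hR' hmR]
  -- lines with a common element
  have s1 : ∀ l ∈ lv r E 2, a ∉ l → ∀ m ∈ lv r E 2, a ∉ m → ∀ b ∈ l, b ∈ m → f l = f m := by
    intro l hl hal m hm ham b hbl hbm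
    by_cases hlm : l = m
    · rw [hlm]
    · have h1 : ∃ d ∈ m, d ∉ l := by
        by_contra hcon
        push Not at hcon
        exact hlm (fl_eq hr (mem_lv.1 hm).1 (mem_lv.1 hl).1 hcon
          (by rw [(mem_lv.1 hm).2, (mem_lv.1 hl).2])).symm
      obtain ⟨d, hd, hdl⟩ := h1
      have hdE := fl_sub (mem_lv.1 hm).1 hd
      have hQ := jn_lv hr hl hdE hdl
      have hlQ := sub_jn hr (mem_lv.1 hl).1 hdE
      have hmQ : m ⊆ jn r E l d := line_sub hr lp hm (mem_lv.1 hQ).1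
        (fun h => hdl (pt_sub hr (mem_lv.1 hl).1 hbl h)) hbm hd (hlQ hbl)
        (mem_jn hr (mem_lv.1 hl).1 hdE)
      by_cases haQ : a ∈ jn r E l d
      · obtain ⟨c, hc, hcQ⟩ := ex_out hr (show r (jn r E l d) < r E by
          rw [(mem_lv.1 hQ).2]; omega)
        rw [s0 l hl hal b hbl _ hQ hlQ haQ c hc hcQ, s0 m hm ham b hbm _ hQ hmQ haQ c hc hcQ]
      · have hQ' : jn r E l d ∈ (lv r E 3).filter (fun P => a ∉ P) := mem_filter.2 ⟨hQ, haQ⟩
        rw [hfg l (mem_filter.2 ⟨hl, hal⟩) _ hQ' hlQ, hfg m (mem_filter.2 ⟨hm, ham⟩) _ hQ' hmQ]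
  -- two lines, elements `b` and `b'` whose line avoids `a`, or parallel
  have s2 : ∀ l ∈ lv r E 2, a ∉ l → ∀ m ∈ lv r E 2, a ∉ m → ∀ b ∈ l, ∀ b' ∈ m,
      a ∉ cl r E (insert b' (pt r E b)) → f l = f m := by
    intro l hl hal m hm ham b hb b' hb' h
    have hbE := fl_sub (mem_lv.1 hl).1 hb
    have hbE' := fl_sub (mem_lv.1 hm).1 hb'
    by_cases hbb : b' ∈ pt r E b
    · exact s1 l hl hal m hm ham b hb (pt_sub hr (mem_lv.1 hm).1 hb' (pt_symm hr lp hbE hbE' hbb))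
    · have hbp := pt_lv hr lp hbE
      have hn := jn_lv hr hbp hbE' hbb
      have h1 : b ∈ jn r E (pt r E b) b' := sub_jn hr (mem_lv.1 hbp).1 hbE' (mem_pt hbE)
      have h2 : b' ∈ jn r E (pt r E b) b' := mem_jn hr (mem_lv.1 hbp).1 hbE'
      rw [s1 l hl hal _ hn h b hb h1, s1 _ hn h m hm ham b' h2 hb']
  have s3 : ∀ l ∈ lv r E 2, a ∉ l → ∀ m ∈ lv r E 2, a ∉ m → f l = f m := by
    intro l hl hal m hm ham
    obtain ⟨b', hb'⟩ := ex_mem hr hm
    obtain ⟨b, hb⟩ := ex_mem hr hl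
    have hbE := fl_sub (mem_lv.1 hl).1 hb
    have hbE' := fl_sub (mem_lv.1 hm).1 hb'
    by_cases hn : a ∈ cl r E (insert b' (pt r E b))
    · obtain ⟨d, hd, hdb⟩ := two_on_line hr lp hl hbE
      have hdE := fl_sub (mem_lv.1 hl).1 hd
      refine s2 l hl hal m hm ham d hd b' hb' ?_
      intro hn2
      -- both lines contain `a` and `b'`
      have hbp := pt_lv hr lp hbE
      have hdp := pt_lv hr lp hdE
      have hbb : b' ∉ pt r E b := by
        intro h
        rw [insert_eq_of_mem h] at hn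
        have h1 : cl r E (pt r E b) = pt r E b :=
          cl_eq_of_fl hr (mem_lv.1 hbp).1 subset_rfl rfl
        rw [h1] at hn
        exact hal (pt_sub hr (mem_lv.1 hl).1 hb hn)
      have hdb' : b' ∉ pt r E d := by
        intro h
        rw [insert_eq_of_mem h] at hn2
        have h1 : cl r E (pt r E d) = pt r E d :=
          cl_eq_of_fl hr (mem_lv.1 hdp).1 subset_rfl rfl
        rw [h1] at hn2
        exact hal (pt_sub hr (mem_lv.1 hl).1 hd hn2)
      have hn1 := jn_lv hr hbp hbE' hbb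
      have hn3 := jn_lv hr hdp hbE' hdb'
      have hab' : a ∉ pt r E b' := fun h => ham (pt_sub hr (mem_lv.1 hm).1 hb' h)
      have e1 : jn r E (pt r E b) b' = jn r E (pt r E d) b' :=
        line_eq hr lp hn1 hn3 hbE' ha hab' (mem_jn hr (mem_lv.1 hbp).1 hbE') hn
          (mem_jn hr (mem_lv.1 hdp).1 hbE') hn2
      have e2 : l = jn r E (pt r E b) b' :=
        line_eq hr lp hl hn1 hbE hdE hdb hb hd
          (sub_jn hr (mem_lv.1 hbp).1 hbE' (mem_pt hbE))
          (e1 ▸ sub_jn hr (mem_lv.1 hdp).1 hbE' (mem_pt hdE))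
      exact hal (e2 ▸ hn)
    · exact s2 l hl hal m hm ham b hb b' hb' hn
  -- a plane contains a line
  have s4 : ∀ P ∈ (lv r E 3).filter (fun P => a ∉ P), ∃ l ∈ lv r E 2, a ∉ l ∧ g P = f l := by
    intro P hP
    obtain ⟨hP1, haP⟩ := mem_filter.1 hP
    obtain ⟨b, hb⟩ := ex_mem hr hP1
    have hbE := fl_sub (mem_lv.1 hP1).1 hb
    have hbp := pt_lv hr lp hbE
    obtain ⟨c, hc, hcb⟩ := ex_diff hr (show r (pt r E b) < r P by
      rw [(mem_lv.1 hbp).2, (mem_lv.1 hP1).2]; omega)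
    have hcE := fl_sub (mem_lv.1 hP1).1 hc
    have hm := jn_lv hr hbp hcE hcb
    have hmP : jn r E (pt r E b) c ⊆ P := line_sub hr lp hm (mem_lv.1 hP1).1 hcb
      (sub_jn hr (mem_lv.1 hbp).1 hcE (mem_pt hbE)) (mem_jn hr (mem_lv.1 hbp).1 hcE) hb hc
    have ham : a ∉ jn r E (pt r E b) c := fun h => haP (hmP h)
    exact ⟨_, hm, ham, (hfg _ (mem_filter.2 ⟨hm, ham⟩) P hP hmP).symm⟩
  by_cases hA : ∃ l, l ∈ lv r E 2 ∧ a ∉ l
  · obtain ⟨l, hl, hal⟩ := hA
    refine ⟨f l, ?_, ?_⟩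
    · intro m hm
      obtain ⟨h1, h2⟩ := mem_filter.1 hm
      exact s3 m h1 h2 l hl hal
    · intro P hP
      obtain ⟨m, hm, ham, h1⟩ := s4 P hP
      rw [h1]
      exact s3 m hm ham l hl hal
  · refine ⟨0, ?_, ?_⟩
    · intro m hm
      exact absurd ⟨m, mem_filter.1 hm⟩ hA
    · intro P hP
      obtain ⟨m, hm, ham, h1⟩ := s4 P hP
      exact absurd ⟨m, hm, ham⟩ hA

/-- the lines through `a` and the points different from `a` -/
theorem lines_through (hr : IsRk r) (lp : Lp r E) {a : α} (ha : a ∈ E) :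
    ((lv r E 2).filter (fun l => a ∈ l)).card + 1 ≤ (lv r E 1).card := by
  classical
  have hp := pt_lv hr lp ha
  have h0 : ∀ l : Finset α, ∃ q : Finset α, l ∈ (lv r E 2).filter (fun l => a ∈ l) →
      q ∈ (lv r E 1).erase (pt r E a) ∧ q ⊆ l := by
    intro l
    by_cases hl : l ∈ (lv r E 2).filter (fun l => a ∈ l)
    · obtain ⟨h1, h2⟩ := mem_filter.1 hl
      obtain ⟨b, hb, hba⟩ := two_on_line hr lp h1 ha
      have hbE := fl_sub (mem_lv.1 h1).1 hb
      refine ⟨pt r E b, fun _ => ⟨mem_erase.2 ⟨?_, pt_lv hr lp hbE⟩, pt_sub hr (mem_lv.1 h1).1 hb⟩⟩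
      intro h
      exact hba (h ▸ mem_pt hbE)
    · exact ⟨∅, fun h => absurd h hl⟩
  choose q hq using h0
  have h1 : ((lv r E 2).filter (fun l => a ∈ l)).card ≤ ((lv r E 1).erase (pt r E a)).card := by
    refine card_le_card_of_injOn q (fun l hl => (hq l hl).1) ?_
    intro l hl m hm hlm
    obtain ⟨hl1, hl2⟩ := hq l hl
    obtain ⟨hm1, hm2⟩ := hq m hm
    obtain ⟨l1, l2⟩ := mem_filter.1 (mem_coe.1 hl)
    obtain ⟨m1, m2⟩ := mem_filter.1 (mem_coe.1 hm)
    obtain ⟨b, hb⟩ := ex_mem hr (mem_erase.1 hl1).2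
    have hbE := fl_sub (mem_lv.1 (mem_erase.1 hl1).2).1 hb
    have hba : b ∉ pt r E a := by
      intro h
      apply (mem_erase.1 hl1).1
      rw [← pt_eq hr lp (mem_erase.1 hl1).2 hb, pt_eq hr lp hp h]
    exact line_eq hr lp l1 m1 ha hbE hba l2 (hl2 hb) m2 (hm2 (hlm ▸ hb))
  have h2 := card_erase_add_one hp
  omega

/-- **The main inequality.** -/
theorem main (hr : IsRk r) (lp : Lp r E) (h4 : r E = 4) :
    2 * ((lv r E 2).card : ℤ) ≤ (lv r E 1).card + 1 +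
      ∑ P ∈ lv r E 3, ((((lv r E 2).filter (fun l => l ⊆ P)).card : ℤ) - 1) := by
  obtain ⟨a, ha, -⟩ := ex_out hr (show r ∅ < r E by rw [hr.empty]; omega)
  have h1 := through hr lp h4 ha
  have h2 := avoid hr lp h4 ha
  have h3 := lines_through hr lp ha
  have h5 : ∑ P ∈ (lv r E 3).filter (fun P => a ∉ P),
        (((lv r E 2).filter (fun l => a ∉ l)).filter (fun l => l ⊆ P)).card =
      ∑ P ∈ (lv r E 3).filter (fun P => a ∉ P), ((lv r E 2).filter (fun l => l ⊆ P)).card := by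
    refine sum_congr rfl fun P hP => ?_
    congr 1
    ext l
    simp only [mem_filter]
    constructor
    · rintro ⟨⟨h6, h7⟩, h8⟩; exact ⟨h6, h8⟩
    · rintro ⟨h6, h8⟩; exact ⟨⟨h6, fun h => (mem_filter.1 hP).2 (h8 h)⟩, h8⟩
  rw [h5] at h2
  have h6 := card_filter_add_card_filter_not (s := lv r E 2) (fun l => a ∈ l)
  have h7 := card_filter_add_card_filter_not (s := lv r E 3) (fun P => a ∈ P)
  have h8 := sum_filter_add_sum_filter_not (lv r E 3) (fun P => a ∈ P)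
    (fun P => ((lv r E 2).filter (fun l => l ⊆ P)).card)
  rw [sum_sub_distrib, sum_const, nsmul_eq_mul, mul_one]
  have h9 : (∑ P ∈ lv r E 3, (((lv r E 2).filter (fun l => l ⊆ P)).card : ℤ)) =
      ((∑ P ∈ lv r E 3, ((lv r E 2).filter (fun l => l ⊆ P)).card : ℕ) : ℤ) := by push_cast; rfl
  rw [h9]
  omega

end Pool.Agent.Run7.h453.IZ
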