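import Pool.Agent.Run7.h453.IZ.Comb
import Pool.Agent.H594R3.KL1

set_option autoImplicit false

/-!
Inverse Kazhdan-Lusztig polynomials and the inverse `Z`-polynomial in terms of the lattice of flats.
-/

namespace Pool.Agent.Run7.h453.IZ

open Finset Polynomial DC813 Pool.Agent.W573.RF
open Pool.Agent.K7.H84.GG (fl cl Lp)
open Pool.Agent.K7.H62.GGWEIS

variable {α : Type} [DecidableEq α]

/-- The flats `H` with `F ⊆ H ⊆ G`. -/
def between (r : Finset α → ℕ) (E F G : Finset α) : Finset (Finset α) :=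
  (fl r E).filter (fun H => F ⊆ H ∧ H ⊆ G)

/-- The flats contained in `G`. -/
def below (r : Finset α → ℕ) (E G : Finset α) : Finset (Finset α) :=
  (fl r E).filter (fun H => H ⊆ G)

variable {r : Finset α → ℕ} {E : Finset α}

lemma mem_between {F G H : Finset α} : H ∈ between r E F G ↔ H ∈ fl r E ∧ F ⊆ H ∧ H ⊆ G :=
  mem_filter

lemma mem_below {G H : Finset α} : H ∈ below r E G ↔ H ∈ fl r E ∧ H ⊆ G := mem_filter

/-- the Möbius recursion from the left implies the one from the right -/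
lemma moebius_left {μ : Finset α → Finset α → ℤ} (h1 : ∀ F ∈ fl r E, μ F F = 1)
    (h2 : ∀ F ∈ fl r E, ∀ G ∈ fl r E, F ⊂ G → ∑ H ∈ between r E F G, μ F H = 0) :
    ∀ F ∈ fl r E, ∀ G ∈ fl r E, F ⊆ G → ∑ H ∈ between r E F G, μ H G = if F = G then 1 else 0 := by
  classical
  let M : Matrix (fl r E) (fl r E) ℤ := fun F H => if F.1 ⊆ H.1 then μ F.1 H.1 else 0
  let Z : Matrix (fl r E) (fl r E) ℤ := fun F H => if F.1 ⊆ H.1 then 1 else 0
  have key : M * Z = 1 := by
    ext F G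
    rw [Matrix.mul_apply, Matrix.one_apply]
    have e1 : ∑ H : fl r E, M F H * Z H G =
        ∑ H ∈ fl r E, (if F.1 ⊆ H ∧ H ⊆ G.1 then μ F.1 H else 0) := by
      rw [← Finset.sum_coe_sort (fl r E)]
      refine sum_congr rfl fun H _ => ?_
      show (if F.1 ⊆ H.1 then μ F.1 H.1 else 0) * (if H.1 ⊆ G.1 then 1 else 0) = _
      by_cases ha : F.1 ⊆ H.1 <;> by_cases hb : H.1 ⊆ G.1 <;> simp [ha, hb]
    rw [e1, ← sum_filter]
    by_cases hFG : F = G
    · rw [if_pos hFG, hFG]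
      have e2 : (fl r E).filter (fun H => G.1 ⊆ H ∧ H ⊆ G.1) = {G.1} := by
        ext H
        rw [mem_filter, mem_singleton]
        constructor
        · rintro ⟨_, h3, h4⟩; exact subset_antisymm h4 h3
        · rintro rfl; exact ⟨G.2, subset_rfl, subset_rfl⟩
      rw [e2, sum_singleton, h1 G.1 G.2]
    · rw [if_neg hFG]
      by_cases hsub : F.1 ⊆ G.1
      · exact h2 F.1 F.2 G.1 G.2 (_root_.ssubset_iff_subset_ne.2 ⟨hsub, fun h => hFG (Subtype.ext h)⟩)
      · have e2 : (fl r E).filter (fun H => F.1 ⊆ H ∧ H ⊆ G.1) = ∅ := by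
          rw [filter_eq_empty_iff]
          rintro H _ ⟨h3, h4⟩
          exact hsub (h3.trans h4)
        rw [e2, sum_empty]
  rw [mul_eq_one_comm] at key
  intro F hF G hG hFG
  have h3 := congrFun (congrFun key ⟨F, hF⟩) ⟨G, hG⟩
  rw [Matrix.mul_apply, Matrix.one_apply] at h3
  have e1 : ∑ H : fl r E, Z ⟨F, hF⟩ H * M H ⟨G, hG⟩ =
      ∑ H ∈ fl r E, (if F ⊆ H ∧ H ⊆ G then μ H G else 0) := by
    rw [← Finset.sum_coe_sort (fl r E)]
    refine sum_congr rfl fun H _ => ?_
    show (if F ⊆ H.1 then (1 : ℤ) else 0) * (if H.1 ⊆ G then μ H.1 G else 0) = _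
    by_cases ha : F ⊆ H.1 <;> by_cases hb : H.1 ⊆ G <;> simp [ha, hb]
  rw [e1, ← sum_filter] at h3
  rw [between, h3]
  by_cases h : F = G
  · rw [if_pos h, if_pos (Subtype.ext h)]
  · rw [if_neg h, if_neg (fun h' => h (congrArg Subtype.val h'))]

/-- the data: the signed inverse Kazhdan-Lusztig polynomials `v F` of the restrictions to the flats
and the (unsigned-by-convention) sums `y H` -/
structure Dat (r : Finset α → ℕ) (E : Finset α) (y v : Finset α → ℤ[X]) : Prop where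
  deg : ∀ H ∈ fl r E, (y H).natDegree ≤ r H
  pal : ∀ H ∈ fl r E, reflect (r H) (y H) = y H
  bot : ∀ H ∈ fl r E, r H = 0 → y H = 1
  sum : ∀ G ∈ fl r E, ∑ H ∈ below r E G, y H = reflect (r G) (v G)
  vdeg : ∀ G ∈ fl r E, 0 < r G → 2 * (v G).natDegree < r G

lemma below_rank_zero (hr : IsRk r) {H G : Finset α} (hH : H ∈ fl r E) (hG : G ∈ fl r E)
    (hHG : H ⊆ G) (h : r G = 0) : H = G := by
  have := hr.mono H G hHG
  exact fl_eq hr hH hG hHG (by omega)

theorem mk_dat (hr : IsRk r) {μ : Finset α → Finset α → ℤ} {Q : Finset α → ℤ[X]}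
    (h1 : ∀ F ∈ fl r E, μ F F = 1)
    (h2 : ∀ F ∈ fl r E, ∀ G ∈ fl r E, F ⊂ G → ∑ H ∈ between r E F G, μ F H = 0)
    (q0 : ∀ F ∈ fl r E, r F = 0 → Q F = 1)
    (qdeg : ∀ F ∈ fl r E, 0 < r F → 2 * (Q F).natDegree < r F)
    (q : ∀ G ∈ fl r E, (-1) ^ r G * reflect (r G) (Q G) = ∑ F ∈ below r E G, (-1) ^ r F * Q F *
      reflect (r G - r F) (∑ H ∈ between r E F G, C (μ F H) * X ^ (r G - r H))) :
    Dat r E (fun H => ∑ F ∈ below r E H, (-1) ^ r F * Q F * (X ^ (r H - r F) * C (μ F H)))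
      (fun G => (-1) ^ r G * Q G) := by
  have hdegv : ∀ F ∈ fl r E, ((-1 : ℤ[X]) ^ r F * Q F).natDegree ≤ r F := by
    intro F hF
    have e1 : ((-1 : ℤ[X]) ^ r F * Q F).natDegree ≤ (Q F).natDegree := by
      rcases neg_one_pow_eq_or ℤ[X] (r F) with h | h <;> rw [h] <;> simp
    by_cases h0 : r F = 0
    · rw [q0 F hF h0] at e1 ⊢
      refine e1.trans ?_
      simp
    · have := qdeg F hF (by omega)
      omega
  have hrefl : ∀ (n : ℕ) (p : ℤ[X]) (m : ℕ), reflect n ((-1) ^ m * p) = (-1) ^ m * reflect n p := by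
    intro n p m
    rcases neg_one_pow_eq_or ℤ[X] m with h | h
    · rw [h, one_mul, one_mul]
    · rw [h, neg_one_mul, neg_one_mul, reflect_neg]
  have hsum : ∀ G ∈ fl r E, ∑ H ∈ below r E G,
      (∑ F ∈ below r E H, (-1) ^ r F * Q F * (X ^ (r H - r F) * C (μ F H))) =
      reflect (r G) ((-1) ^ r G * Q G) := by
    intro G hG
    rw [hrefl, q G hG]
    have e1 : ∑ H ∈ below r E G, ∑ F ∈ below r E H, (-1) ^ r F * Q F * (X ^ (r H - r F) * C (μ F H)) =
        ∑ F ∈ below r E G, ∑ H ∈ between r E F G,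
          (-1) ^ r F * Q F * (X ^ (r H - r F) * C (μ F H)) := by
      refine sum_comm' ?_
      intro H F
      rw [mem_below, mem_below, mem_between, mem_below]
      constructor
      · rintro ⟨⟨a1, a2⟩, a3, a4⟩; exact ⟨⟨a1, a4, a2⟩, a3, a4.trans a2⟩
      · rintro ⟨⟨a1, a2, a3⟩, a4, a5⟩; exact ⟨⟨a1, a3⟩, a4, a2⟩
    rw [e1]
    refine sum_congr rfl fun F hF => ?_
    rw [← mul_sum]
    congr 1
    rw [H594R3.KL.reflect_sum]
    refine sum_congr rfl fun H hH => ?_
    obtain ⟨a1, a2⟩ := mem_below.1 hF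
    obtain ⟨b1, b2, b3⟩ := mem_between.1 hH
    have c1 := hr.mono F H b2
    have c2 := hr.mono H G b3
    rw [reflect_C_mul_X_pow, revAt_le (by omega), show r G - r F - (r G - r H) = r H - r F by omega]
    ring
  refine ⟨?_, ?_, ?_, hsum, ?_⟩
  · intro H hH
    apply natDegree_sum_le_of_forall_le
    intro F hF
    obtain ⟨a1, a2⟩ := mem_below.1 hF
    have c1 := hr.mono F H a2
    refine natDegree_mul_le.trans ?_
    have c2 := hdegv F a1
    have c3 : (X ^ (r H - r F) * C (μ F H) : ℤ[X]).natDegree ≤ r H - r F := by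
      refine natDegree_mul_le.trans ?_
      rw [natDegree_X_pow, natDegree_C, add_zero]
    omega
  · intro H hH
    have hleft := moebius_left h1 h2
    show reflect (r H) (∑ F ∈ below r E H, (-1) ^ r F * Q F * (X ^ (r H - r F) * C (μ F H))) = _
    rw [H594R3.KL.reflect_sum]
    have e1 : ∀ F ∈ below r E H, reflect (r H) ((-1) ^ r F * Q F * (X ^ (r H - r F) * C (μ F H))) =
        ∑ K ∈ below r E F, C (μ F H) *
          (∑ J ∈ below r E K, (-1) ^ r J * Q J * (X ^ (r K - r J) * C (μ J K))) := by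
      intro F hF
      obtain ⟨a1, a2⟩ := mem_below.1 hF
      have c1 := hr.mono F H a2
      rw [← mul_sum, hsum F a1]
      have e2 : (-1) ^ r F * Q F * (X ^ (r H - r F) * C (μ F H)) =
          C (μ F H) * (X ^ (r H - r F) * ((-1) ^ r F * Q F)) := by ring
      rw [e2, reflect_C_mul]
      congr 1
      have e3 := H594R3.KL.reflect_X_pow_mul (a := r H - r F) (hdegv F a1)
      rwa [show r H - r F + r F = r H by omega] at e3
    rw [sum_congr rfl e1]
    have e2 : ∑ F ∈ below r E H, ∑ K ∈ below r E F, C (μ F H) *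
          (∑ J ∈ below r E K, (-1) ^ r J * Q J * (X ^ (r K - r J) * C (μ J K))) =
        ∑ K ∈ below r E H, ∑ F ∈ between r E K H, C (μ F H) *
          (∑ J ∈ below r E K, (-1) ^ r J * Q J * (X ^ (r K - r J) * C (μ J K))) := by
      refine sum_comm' ?_
      intro F K
      rw [mem_below, mem_below, mem_between, mem_below]
      constructor
      · rintro ⟨⟨a1, a2⟩, a3, a4⟩; exact ⟨⟨a1, a4, a2⟩, a3, a4.trans a2⟩
      · rintro ⟨⟨a1, a2, a3⟩, a4, a5⟩; exact ⟨⟨a1, a3⟩, a4, a2⟩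
    rw [e2, sum_eq_single_of_mem H (mem_below.2 ⟨hH, subset_rfl⟩)]
    · rw [← sum_mul, ← map_sum, hleft H hH H hH subset_rfl, if_pos rfl, map_one, one_mul]
    · intro K hK hKH
      obtain ⟨a1, a2⟩ := mem_below.1 hK
      rw [← sum_mul, ← map_sum, hleft K a1 H hH a2, if_neg hKH, map_zero, zero_mul]
  · intro H hH h0
    have e1 : below r E H = {H} := by
      ext K
      rw [mem_below, mem_singleton]
      constructor
      · rintro ⟨a1, a2⟩; exact below_rank_zero hr a1 hH a2 h0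
      · rintro rfl; exact ⟨hH, subset_rfl⟩
    show ∑ F ∈ below r E H, (-1) ^ r F * Q F * (X ^ (r H - r F) * C (μ F H)) = 1
    rw [e1, sum_singleton, h0, q0 H hH h0, h1 H hH]
    simp
  · intro G hG h0
    have e1 : ((-1 : ℤ[X]) ^ r G * Q G).natDegree ≤ (Q G).natDegree := by
      rcases neg_one_pow_eq_or ℤ[X] (r G) with h | h <;> rw [h] <;> simp
    have := qdeg G hG h0
    show 2 * ((-1 : ℤ[X]) ^ r G * Q G).natDegree < r G
    omega

end Pool.Agent.Run7.h453.IZ
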